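import Pool.Agent.Run7.h595.T3.Step

/-! Fibres of the space of classes of reduced paths; the levels given by a section. -/

set_option autoImplicit false

namespace Run7.h595.T3

variable {V : Type} {t : V → V → V → Prop}

/-- reduced paths from `o` to `x` -/
def Rep (t : V → V → V → Prop) (o x : V) : Type :=
  {P : List V // R t P ∧ P.head? = some x ∧ P.getLast? = some o}

/-- equivalence -/
def sd (ht : TS t) (o x : V) : Setoid (Rep t o x) :=
  ⟨fun a b => E t a.1 b.1, ⟨fun _ => Relation.ReflTransGen.refl, fun h => E.symm ht h,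
    fun h h' => h.trans h'⟩⟩

/-- classes -/
def Fb (ht : TS t) (o x : V) : Type := Quotient (sd ht o x)

/-- the class -/
def cl (ht : TS t) {o x : V} (a : Rep t o x) : Fb ht o x := Quotient.mk (sd ht o x) a

theorem cl_eq (ht : TS t) {o x : V} {a b : Rep t o x} : cl ht a = cl ht b ↔ E t a.1 b.1 :=
  ⟨fun h => Quotient.exact h, fun h => Quotient.sound h⟩

theorem cl_surj (ht : TS t) {o x : V} (w : Fb ht o x) : ∃ a, cl ht a = w := Quotient.exists_rep w

theorem Rep.form {o x : V} (a : Rep t o x) : ∃ Q, a.1 = x :: Q := by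
  obtain ⟨P, h1, h2, h3⟩ := a
  cases P with
  | nil => simp at h2
  | cons y Q =>
    simp only [List.head?_cons, Option.some.injEq] at h2
    subst h2
    exact ⟨Q, rfl⟩

theorem rep_of_E {o x : V} (ht : TS t) (a : Rep t o x) {P : List V} (h : E t P a.1) :
    ∃ b : Rep t o x, b.1 = P :=
  ⟨⟨P, a.2.1.of_E (h.symm ht), (inf h).1.trans a.2.2.1, (inf h).2.2.trans a.2.2.2⟩, rfl⟩

theorem rep_step (ht : TS t) {o x : V} (y : V) (a : Rep t o x) :
    ∃ b : Rep t o y, St t x y a.1 b.1 := by
  obtain ⟨Q, hQ⟩ := a.form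
  obtain ⟨P', h⟩ := St.ex (t := t) x y a.1
  have hR : R t P' := by
    rw [hQ] at h
    exact St.R ht (hQ ▸ a.2.1) h
  refine ⟨⟨P', hR, ?_, ?_⟩, h⟩
  · cases h <;> rfl
  · have h3 := a.2.2.2
    cases h with
    | down h =>
      rw [(inf h).2.2] at h3
      rw [← h3]
      simp [List.getLast?_cons]
    | hor h h1 h2 =>
      rw [(inf h).2.2] at h3
      rw [← h3]
      simp [List.getLast?_cons]
    | up h2 h3' =>
      rw [hQ] at h3 ⊢
      rw [← h3]
      simp [List.getLast?_cons]

/-- the step -/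
noncomputable def stp (ht : TS t) (o x y : V) : Fb ht o x → Fb ht o y :=
  Quotient.lift (fun a => cl ht (rep_step ht y a).choose) (by
    intro a b h
    exact (cl_eq ht).2 (St.uniq ht a.2.1 h (rep_step ht y a).choose_spec
      (rep_step ht y b).choose_spec))

theorem stp_cl (ht : TS t) {o x y : V} {a : Rep t o x} {b : Rep t o y}
    (h : St t x y a.1 b.1) : stp ht o x y (cl ht a) = cl ht b :=
  (cl_eq ht).2 (St.uniq ht a.2.1 Relation.ReflTransGen.refl (rep_step ht y a).choose_spec h)

theorem stp_back (ht : TS t) {o x : V} (y : V) (w : Fb ht o x) :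
    stp ht o y x (stp ht o x y w) = w := by
  obtain ⟨a, rfl⟩ := cl_surj ht w
  obtain ⟨b, hb⟩ := rep_step ht y a
  rw [stp_cl ht hb]
  obtain ⟨Q, hQ⟩ := a.form
  have hR : R t (x :: Q) := hQ ▸ a.2.1
  rw [hQ] at hb
  obtain ⟨P'', h1, h2⟩ := St.back ht hR hb
  rw [← hQ] at h2
  obtain ⟨c, rfl⟩ := rep_of_E ht a h2
  rw [stp_cl ht h1]
  exact (cl_eq ht).2 h2

theorem stp_tri (ht : TS t) {o x y z : V} (hx : t x y z) (w : Fb ht o x) :
    stp ht o y z (stp ht o x y w) = stp ht o x z w := by
  obtain ⟨a, rfl⟩ := cl_surj ht w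
  obtain ⟨b, hb⟩ := rep_step ht y a
  obtain ⟨c, hc⟩ := rep_step ht z a
  rw [stp_cl ht hb, stp_cl ht hc]
  obtain ⟨Q, hQ⟩ := a.form
  have hR : R t (x :: Q) := hQ ▸ a.2.1
  rw [hQ] at hb hc
  obtain ⟨P2, h1, h2⟩ := St.tri ht hR hx hb hc
  obtain ⟨d, rfl⟩ := rep_of_E ht c h2
  rw [stp_cl ht h1]
  exact (cl_eq ht).2 h2

/-- the step as a bijection -/
noncomputable def eqv (ht : TS t) (o x y : V) : Fb ht o x ≃ Fb ht o y :=
  ⟨stp ht o x y, stp ht o y x, stp_back ht y, stp_back ht x⟩

/-- the path of length zero -/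
def rep0 (t : V → V → V → Prop) (o : V) : Rep t o o := ⟨[o], by
  have key : ∀ P : List V, E t [o] P → P = [o] := by
    intro P h
    induction h with
    | refl => rfl
    | tail _ h2 ih =>
      subst ih
      cases h2 with
      | cons h => cases h
  refine ⟨fun P hP hB => ?_, rfl, rfl⟩
  rw [key P hP] at hB
  cases hB with
  | cons h => cases h⟩

/-- the levels -/
structure Lev (t : V → V → V → Prop) (A : V → V → Prop) (o : V) (ℓ : V → ℕ) : Prop where
  zero : ∀ x, ℓ x = 0 ↔ x = o
  step : ∀ x y, A x y → ℓ x ≤ ℓ y + 1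
  down : ∀ x, ℓ x ≠ 0 → ∃ y, A x y ∧ ℓ y + 1 = ℓ x
  hor : ∀ x y, A x y → ℓ x = ℓ y → ∃ z, t x y z ∧ ℓ z + 1 = ℓ x
  low : ∀ x a b, A x a → A x b → ℓ a + 1 = ℓ x → ℓ b + 1 = ℓ x → a ≠ b → t x a b

/-- paths with adjacent vertices -/
def Ch (A : V → V → Prop) : List V → Prop
  | [] => True
  | [_] => True
  | x :: y :: P => A x y ∧ Ch A (y :: P)

theorem Ch.fl {A : V → V → Prop} (hA : ∀ x y z, t x y z → A x y) (ht : TS t) {P P' : List V}
    (h : Fl t P P') : Ch A P → Ch A P' := by
  induction h with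
  | top h1 h2 =>
    rintro ⟨-, -, h⟩
    exact ⟨hA _ _ _ (ht.s1 h2), hA _ _ _ (ht.r2 h1), h⟩
  | @cons x P P' h ih =>
    intro hc
    have hh := h.head.1
    cases P with
    | nil => cases h
    | cons p l =>
      cases P' with
      | nil => cases h
      | cons p' l' =>
        simp only [List.head?_cons, Option.some.injEq] at hh
        subst hh
        exact ⟨hc.1, ih hc.2⟩

theorem Ch.e {A : V → V → Prop} (hA : ∀ x y z, t x y z → A x y) (ht : TS t) {P P' : List V}
    (h : E t P P') (hc : Ch A P) : Ch A P' := by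
  induction h with
  | refl => exact hc
  | tail _ h2 ih => exact ih.fl hA ht h2

theorem levels (ht : TS t) {A : V → V → Prop} (hsym : ∀ x y, A x y → A y x)
    (hA : ∀ x y z, t x y z → A x y) {o : V}
    (hconn : ∀ p : V → Prop, p o → (∀ x y, A x y → p x → p y) → ∀ x, p x)
    (s : ∀ x, Fb ht o x) (h0 : s o = cl ht (rep0 t o))
    (hs : ∀ x y, A x y → stp ht o x y (s x) = s y) : ∃ ℓ : V → ℕ, Lev t A o ℓ := by
  choose a ha using fun x => cl_surj ht (s x)
  have hst : ∀ x y, A x y → ∃ P, St t x y (a x).1 P ∧ E t P (a y).1 := by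
    intro x y h
    obtain ⟨b, hb⟩ := rep_step ht y (a x)
    refine ⟨b.1, hb, ?_⟩
    rw [← cl_eq ht, ha, ← hs x y h, ← ha x, stp_cl ht hb]
  have hst' : ∀ x y, A x y → ∀ P, St t x y (a x).1 P → E t P (a y).1 := by
    intro x y h P hP
    obtain ⟨P', h1, h2⟩ := hst x y h
    exact (St.uniq ht (a x).2.1 Relation.ReflTransGen.refl hP h1).trans h2
  have h1 : E t (a o).1 [o] := by
    have := (cl_eq ht).1 ((ha o).trans h0)
    exact this
  have hch : ∀ x, Ch A (a x).1 := by
    refine hconn _ ?_ ?_
    · exact Ch.e hA ht (h1.symm ht) trivial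
    · intro x y hxy hc
      obtain ⟨P', h2, h3⟩ := hst x y hxy
      refine Ch.e hA ht h3 ?_
      obtain ⟨Q, hQ⟩ := (a x).form
      cases h2 with
      | @down Q' h =>
        have := Ch.e hA ht h hc
        exact this.2
      | @hor z Q' h k1 k2 =>
        have := Ch.e hA ht h hc
        exact ⟨hA _ _ _ (ht.s1 k1), this.2⟩
      | up k1 k2 =>
        rw [hQ] at hc ⊢
        exact ⟨hsym _ _ hxy, hc⟩
  have hlen : ∀ x, 1 ≤ (a x).1.length := by
    intro x
    obtain ⟨Q, hQ⟩ := (a x).form
    rw [hQ]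
    simp
  refine ⟨fun x => (a x).1.length - 1, ?_, ?_, ?_, ?_, ?_⟩
  · intro x
    constructor
    · intro h
      obtain ⟨Q, hQ⟩ := (a x).form
      have h2 := hlen x
      have h3 : Q = [] := by
        rw [hQ] at h h2
        simp only [List.length_cons] at h h2
        exact List.length_eq_zero_iff.1 (by omega)
      have h4 := (a x).2.2.2
      rw [hQ, h3] at h4
      simpa using h4
    · rintro rfl
      have := (inf h1).2.1
      simp only [List.length_cons, List.length_nil] at this
      omega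
  · intro x y h
    obtain ⟨P', h2, h3⟩ := hst y x (hsym _ _ h)
    have h4 := (inf h3).2.1
    have := hlen x
    have := hlen y
    cases h2 with
    | down k =>
      have := (inf k).2.1
      simp only [List.length_cons] at this h4
      omega
    | hor k k1 k2 =>
      have := (inf k).2.1
      simp only [List.length_cons] at this h4
      omega
    | up k1 k2 =>
      simp only [List.length_cons] at h4
      omega
  · intro x h
    obtain ⟨Q, hQ⟩ := (a x).form
    have hc := hch x
    cases Q with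
    | nil =>
      rw [hQ] at h
      simp at h
    | cons z Q =>
      rw [hQ] at hc
      refine ⟨z, hc.1, ?_⟩
      have h2 := hst' x z hc.1 (z :: Q) (St.down (by rw [hQ]))
      have h3 := (inf h2).2.1
      rw [hQ]
      simp only [List.length_cons] at h3 ⊢
      omega
  · intro x y h hl
    obtain ⟨P', h2, h3⟩ := hst x y h
    have h4 := (inf h3).2.1
    have := hlen x
    have := hlen y
    cases h2 with
    | down k =>
      have := (inf k).2.1
      simp only [List.length_cons] at this h4
      omega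
    | @hor z Q' k k1 k2 =>
      refine ⟨z, ht.s0 k1, ?_⟩
      have h5 := hst' x z (hA _ _ _ k1) (z :: Q') (St.down k)
      have h6 := (inf h5).2.1
      have := (inf k).2.1
      simp only [List.length_cons] at this h6 ⊢
      omega
    | up k1 k2 =>
      simp only [List.length_cons] at h4
      omega
  · intro x y z hy hz ly lz hne
    have key : ∀ y, A x y → (a y).1.length - 1 + 1 = (a x).1.length - 1 →
        ∃ Q, E t (a x).1 (x :: y :: Q) := by
      intro y hy ly
      obtain ⟨P', h2, h3⟩ := hst x y hy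
      have h4 := (inf h3).2.1
      have := hlen x
      have := hlen y
      cases h2 with
      | @down Q' k => exact ⟨Q', k⟩
      | hor k k1 k2 =>
        have := (inf k).2.1
        simp only [List.length_cons] at this h4
        omega
      | up k1 k2 =>
        simp only [List.length_cons] at h4
        omega
    obtain ⟨Q1, e1⟩ := key y hy ly
    obtain ⟨Q2, e2⟩ := key z hz lz
    rcases key' ht ((a x).2.1.of_E e1) ((e1.symm ht).trans e2) with ⟨e, -⟩ | ⟨_, w, S, -, -, -, k⟩
    · exact absurd e hne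
    · exact ht.r2 k

end Run7.h595.T3
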