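import Pool.Agent.Run7.h909.T3.Stm
import Pool.Agent.Run7.h595.T3.Fib

/-! Project T3, piece PATH: the levels of a simply connected triangle complex. -/

set_option autoImplicit false

namespace Run7.h595.T3

open SimpleGraph Run7.h909.TD Run7.h909.T3

variable {V : Type} {T : SimpleGraph V} {F : Set (ℤ → V)}

theorem wrap3 {L : Type} [Group L] (c : V → V → L) (φ : ℤ → V) :
    wrap c φ 3 = c (φ 0) (φ 1) * c (φ 1) (φ 2) * c (φ 2) (φ 3) := by
  rw [wrap_succ, wrap_succ, wrap_succ, wrap_zero, one_mul]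
  norm_num

theorem ts (h : Tri T F) : TS (Tg F) := by
  have p3 : ∀ φ ∈ F, ∀ i : ℤ, φ (i + 3) = φ i := fun φ hφ i => (h.per φ hφ).eq i
  refine ⟨?_, ?_, ?_, h.g3, h.g4, h.g5⟩
  · rintro x y z ⟨φ, hφ, rfl, rfl, rfl⟩
    refine ⟨_, h.shift φ hφ 1, rfl, rfl, ?_⟩
    have := p3 φ hφ 0
    simpa using this
  · rintro x y z ⟨φ, hφ, rfl, rfl, rfl⟩
    refine ⟨_, h.refl φ hφ, rfl, ?_, ?_⟩
    · have := p3 φ hφ (-1)
      rw [← this]
      rfl
    · have := p3 φ hφ (-2)
      rw [← this]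
      rfl
  · rintro x y z ⟨φ, hφ, rfl, rfl, rfl⟩
    exact (h.adj φ hφ 0).ne

theorem adj_of (h : Tri T F) : ∀ x y z, Tg F x y z → T.Adj x y := by
  rintro x y z ⟨φ, hφ, rfl, rfl, rfl⟩
  exact h.adj φ hφ 0

theorem exists_section (h : Tri T F) (hs : SC T F) (o : V) : ∃ s : ∀ x, Fb (ts h) o x,
    s o = cl (ts h) (rep0 (Tg F) o) ∧ ∀ x y, T.Adj x y → stp (ts h) o x y (s x) = s y := by
  let t' : ∀ v : V, Fb (ts h) o v ≃ Fb (ts h) o o := fun v => eqv (ts h) o v o
  let P : V → V → Equiv.Perm (Fb (ts h) o o) := fun x y =>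
    ((t' x).symm.trans (eqv (ts h) o x y)).trans (t' y)
  have hP : ∀ x y p, P x y p = t' y (eqv (ts h) o x y ((t' x).symm p)) := fun x y p => rfl
  have hcoc : Coc T F (fun x y => (P x y)⁻¹) := by
    constructor
    · intro x y _
      rw [← mul_inv_rev, inv_eq_one]
      ext1 p
      rw [Equiv.Perm.mul_apply, hP, hP, Equiv.symm_apply_apply, Equiv.Perm.one_apply]
      have : eqv (ts h) o y x (eqv (ts h) o x y ((t' x).symm p)) = (t' x).symm p :=
        (eqv (ts h) o x y).left_inv _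
      rw [this, Equiv.apply_symm_apply]
    · intro φ hφ n hn
      have hn3 : n = 3 := hn.unique (h.per φ hφ)
      subst hn3
      have e3 : φ 3 = φ 0 := by
        have := (h.per φ hφ).eq 0
        simpa using this
      rw [wrap3, e3, ← mul_inv_rev, ← mul_inv_rev, inv_eq_one]
      ext1 p
      rw [Equiv.Perm.mul_apply, Equiv.Perm.mul_apply, hP, hP, hP,
        Equiv.symm_apply_apply, Equiv.symm_apply_apply, Equiv.Perm.one_apply]
      set q := (t' (φ 0)).symm p with hq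
      have e1 : eqv (ts h) o (φ 2) (φ 0) (eqv (ts h) o (φ 1) (φ 2)
          (eqv (ts h) o (φ 0) (φ 1) q)) = q := by
        have h1 : stp (ts h) o (φ 1) (φ 2) (stp (ts h) o (φ 0) (φ 1) q) =
            stp (ts h) o (φ 0) (φ 2) q := stp_tri (ts h) ⟨φ, hφ, rfl, rfl, rfl⟩ q
        show stp (ts h) o (φ 2) (φ 0) (stp (ts h) o (φ 1) (φ 2) (stp (ts h) o (φ 0) (φ 1) q)) = q
        rw [h1]
        exact stp_back (ts h) _ q
      rw [e1, hq, Equiv.apply_symm_apply]
  obtain ⟨f, hf⟩ := hs.2 _ _ hcoc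
  obtain ⟨p, hp⟩ : ∃ p, p = f o (t' o (cl (ts h) (rep0 (Tg F) o))) := ⟨_, rfl⟩
  refine ⟨fun x => (t' x).symm ((f x)⁻¹ p), ?_, ?_⟩
  · show (t' o).symm ((f o)⁻¹ p) = _
    have e : ∀ z, (f o)⁻¹ (f o z) = z := by
      intro z
      rw [← Equiv.Perm.mul_apply (f o)⁻¹ (f o), inv_mul_cancel]
      rfl
    rw [hp, e, Equiv.symm_apply_apply]
  · intro x y hxy
    have h1 := hf x y hxy
    have h2 : P x y = (f y)⁻¹ * f x := by
      have h3 : P x y = ((P x y)⁻¹)⁻¹ := (inv_inv _).symm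
      rw [h3]
      have h4 : (P x y)⁻¹ = (f x)⁻¹ * f y := h1
      rw [h4, mul_inv_rev, inv_inv]
    have h5 : P x y ((f x)⁻¹ p) = (f y)⁻¹ p := by
      rw [h2, Equiv.Perm.mul_apply, ← Equiv.Perm.mul_apply (f x), mul_inv_cancel,
        Equiv.Perm.one_apply]
    rw [hP] at h5
    have h6 : eqv (ts h) o x y ((t' x).symm ((f x)⁻¹ p)) = (t' y).symm ((f y)⁻¹ p) := by
      rw [← h5, Equiv.symm_apply_apply]
    exact h6

/-- **PATH** -/
theorem t_PATH : S_PATH := by
  intro V T F h hs o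
  obtain ⟨s, h0, hs'⟩ := exists_section h hs o
  obtain ⟨ℓ, hl⟩ := levels (ts h) (A := T.Adj) (fun x y h => h.symm) (adj_of h) (o := o) (by
    intro p hp hst x
    have hr := hs.1.preconnected o x
    rw [reachable_iff_reflTransGen] at hr
    induction hr with
    | refl => exact hp
    | tail _ hbd ih => exact hst _ _ hbd ih) s h0 hs'
  exact ⟨ℓ, hl.zero, hl.step, hl.down, hl.hor, hl.low⟩

end Run7.h595.T3
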