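import Mathlib

/-! Path theory for triangle complexes whose links have girth at least six. Paths are lists with the
end vertex at the head. -/

set_option autoImplicit false

namespace Run7.h595.T3

variable {V : Type} (t : V → V → V → Prop)

/-- triangles -/
structure TS : Prop where
  rot : ∀ x y z, t x y z → t y z x
  sw : ∀ x y z, t x y z → t x z y
  ne : ∀ x y z, t x y z → x ≠ y
  g3 : ∀ v a b c, t v a b → t v b c → t v c a → False
  g4 : ∀ v a b c d, t v a b → t v b c → t v c d → t v d a → a = c ∨ b = d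
  g5 : ∀ v a b c d e, t v a b → t v b c → t v c d → t v d e → t v e a → False

/-- flips -/
inductive Fl : List V → List V → Prop
  | top {x z z' w : V} {Q : List V} (h1 : t w z z') (h2 : t z z' x) :
      Fl (x :: z :: w :: Q) (x :: z' :: w :: Q)
  | cons {x : V} {P P' : List V} (h : Fl P P') : Fl (x :: P) (x :: P')

/-- equivalence by flips -/
abbrev E : List V → List V → Prop := Relation.ReflTransGen (Fl t)

/-- backtracks and corners -/
inductive Bad : List V → Prop
  | back {x z : V} {Q : List V} : Bad (x :: z :: x :: Q)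
  | corner {x z w : V} {Q : List V} (h : t x z w) : Bad (x :: z :: w :: Q)
  | cons {x : V} {P : List V} (h : Bad P) : Bad (x :: P)

/-- reduced -/
def R (P : List V) : Prop := ∀ P', E t P P' → ¬ Bad t P'

variable {t}

theorem TS.r1 (ht : TS t) {x y z : V} (h : t x y z) : t y z x := ht.rot _ _ _ h

theorem TS.r2 (ht : TS t) {x y z : V} (h : t x y z) : t z x y := ht.rot _ _ _ (ht.rot _ _ _ h)

theorem TS.s0 (ht : TS t) {x y z : V} (h : t x y z) : t x z y := ht.sw _ _ _ h

theorem TS.s1 (ht : TS t) {x y z : V} (h : t x y z) : t z y x := ht.r1 (ht.s0 h)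

theorem TS.s2 (ht : TS t) {x y z : V} (h : t x y z) : t y x z := ht.r2 (ht.s0 h)

theorem TS.n1 (ht : TS t) {x y z : V} (h : t x y z) : x ≠ y := ht.ne _ _ _ h

theorem TS.n2 (ht : TS t) {x y z : V} (h : t x y z) : y ≠ z := ht.ne _ _ _ (ht.r1 h)

theorem TS.n3 (ht : TS t) {x y z : V} (h : t x y z) : x ≠ z := ht.ne _ _ _ (ht.s0 h)

theorem Fl.symm (ht : TS t) {P P' : List V} (h : Fl t P P') : Fl t P' P := by
  induction h with
  | top h1 h2 =>
    exact Fl.top (ht.s0 h1) (ht.s2 h2)
  | cons _ ih => exact Fl.cons ih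

theorem E.symm (ht : TS t) {P P' : List V} (h : E t P P') : E t P' P := by
  induction h with
  | refl => exact Relation.ReflTransGen.refl
  | tail _ h2 ih => exact Relation.ReflTransGen.head (h2.symm ht) ih

theorem E.cons {x : V} {P P' : List V} (h : E t P P') : E t (x :: P) (x :: P') := by
  induction h with
  | refl => exact Relation.ReflTransGen.refl
  | tail _ h2 ih => exact ih.tail (Fl.cons h2)

theorem E.top {x z z' w : V} {Q : List V} (h1 : t w z z') (h2 : t z z' x) :
    E t (x :: z :: w :: Q) (x :: z' :: w :: Q) := Relation.ReflTransGen.single (Fl.top h1 h2)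

theorem R.of_E {P P' : List V} (h : R t P) (h' : E t P P') : R t P' :=
  fun _ h2 => h _ (h'.trans h2)

theorem R.tail {x : V} {P : List V} (h : R t (x :: P)) : R t P :=
  fun _ h2 h3 => h _ h2.cons (Bad.cons h3)

theorem Fl.head {P P' : List V} (h : Fl t P P') : P.head? = P'.head? ∧ P.length = P'.length ∧
    P.getLast? = P'.getLast? := by
  induction h with
  | top h1 h2 => simp
  | @cons x P P' h ih =>
    refine ⟨rfl, by simp [ih.2.1], ?_⟩
    rw [List.getLast?_cons, List.getLast?_cons, ih.2.2]

theorem inf {P P' : List V} (h : E t P P') : P.head? = P'.head? ∧ P.length = P'.length ∧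
    P.getLast? = P'.getLast? := by
  induction h with
  | refl => exact ⟨rfl, rfl, rfl⟩
  | tail _ h2 ih => exact ⟨ih.1.trans h2.head.1, ih.2.1.trans h2.head.2.1, ih.2.2.trans h2.head.2.2⟩

/-- the second vertices of equivalent paths -/
def Alt (t : V → V → V → Prop) (x z : V) (Q : List V) (z' : V) (Q' : List V) : Prop :=
  (z = z' ∧ E t (z :: Q) (z :: Q')) ∨
    (z ≠ z' ∧ ∃ w S, E t (z :: Q) (z :: w :: S) ∧ E t (z' :: Q') (z' :: w :: S) ∧ t w z z' ∧
      t z z' x)

/-- the induction step, without the reducedness of the second path -/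
theorem step_alt (ht : TS t) {x z : V} {Q : List V} {z1 : V} {Q1 : List V}
    (hx : ∀ w S, E t (z :: Q) (z :: w :: S) → x ≠ w)
    (hK : ∀ w1 S1 w S, E t (z :: Q) (z :: w :: S) → t w z z1 → t z z1 x →
      E t (z1 :: w1 :: S1) (z1 :: w :: S) → Alt t z1 w S w1 S1)
    (hA : Alt t x z Q z1 Q1) {z2 : V} {Q2 : List V}
    (hF : Fl t (x :: z1 :: Q1) (x :: z2 :: Q2)) : Alt t x z Q z2 Q2 := by
  cases hF with
  | cons h =>
    have hh := h.head.1
    simp only [List.head?_cons, Option.some.injEq] at hh
    subst hh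
    rcases hA with ⟨e, h1⟩ | ⟨e, w, S, h1, h2, h3, h4⟩
    · subst e
      exact Or.inl ⟨rfl, h1.tail h⟩
    · exact Or.inr ⟨e, w, S, h1, Relation.ReflTransGen.head (h.symm ht) h2, h3, h4⟩
  | @top _ _ _ w1 S1 a1 a2 =>
    rcases hA with ⟨e, h1⟩ | ⟨e, w, S, h1, h2, h3, h4⟩
    · subst e
      refine Or.inr ⟨?_, w1, S1, h1, Relation.ReflTransGen.refl, a1, a2⟩
      exact ht.ne _ _ _ a2
    · rcases hK w1 S1 w S h1 h3 h4 h2 with ⟨e', h5⟩ | ⟨e', u, U, -, -, -, h8⟩
      · -- the same lower vertex
        subst e'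
        rcases ht.g4 z1 x z w z2 (ht.r1 h4) (ht.s1 h3) (ht.s2 a1) a2 with h | h
        · exact absurd h (hx w S h1)
        · subst h
          exact Or.inl ⟨rfl, h1.trans (E.cons h5)⟩
      · exact (ht.g5 z1 x z w w1 z2 (ht.r1 h4) (ht.s1 h3) (ht.r2 h8) (ht.s2 a1) a2).elim

/-- **the key lemma**: the last lower vertex of a reduced path -/
theorem key (ht : TS t) (n : ℕ) : ∀ (x z : V) (Q : List V), Q.length = n → R t (x :: z :: Q) →
    ∀ (P' : List V), E t (x :: z :: Q) P' → ∃ z' Q', P' = x :: z' :: Q' ∧ Alt t x z Q z' Q' := by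
  induction n using Nat.strong_induction_on with
  | _ n IH =>
    intro x z Q hn hR P' hE
    induction hE with
    | refl => exact ⟨z, Q, rfl, Or.inl ⟨rfl, Relation.ReflTransGen.refl⟩⟩
    | @tail P1 P2 h1 h2 ih =>
      obtain ⟨z1, Q1, rfl, hA⟩ := ih
      have hP2 : ∃ z2 Q2, P2 = x :: z2 :: Q2 := by
        cases h2 with
        | top _ _ => exact ⟨_, _, rfl⟩
        | @cons _ _ P'' h =>
          have := h.head.1
          cases P'' with
          | nil => simp at this
          | cons a l => exact ⟨a, l, rfl⟩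
      obtain ⟨z2, Q2, rfl⟩ := hP2
      refine ⟨z2, Q2, rfl, step_alt ht ?_ ?_ hA h2⟩
      · rintro w S h rfl
        exact hR _ (E.cons h) Bad.back
      · intro w1 S1 w S k1 k2 k3 k4
        have hR1 : R t (z1 :: w :: S) := by
          have e1 : E t (x :: z :: Q) (x :: z1 :: w :: S) := (E.cons k1).trans (E.top k2 k3)
          exact (hR.of_E e1).tail
        have hl : S.length < n := by
          have := (inf k1).2.1
          simp only [List.length_cons] at this
          omega
        obtain ⟨w', S', e, hh⟩ := IH S.length hl z1 w S rfl hR1 _ (k4.symm ht)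
        simp only [List.cons.injEq, true_and] at e
        obtain ⟨rfl, rfl⟩ := e
        exact hh

theorem key' (ht : TS t) {x z z' : V} {Q Q' : List V} (hR : R t (x :: z :: Q))
    (h : E t (x :: z :: Q) (x :: z' :: Q')) : Alt t x z Q z' Q' := by
  obtain ⟨a, b, e, hh⟩ := key ht _ x z Q rfl hR _ h
  simp only [List.cons.injEq, true_and] at e
  obtain ⟨rfl, rfl⟩ := e
  exact hh

/-- **criterion** for reducedness, and the horizontal case -/
theorem crit (ht : TS t) (n : ℕ) : ∀ (y z : V) (Q : List V), Q.length = n → R t (z :: Q) →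
    (∀ Q', ¬ E t (z :: Q) (z :: y :: Q')) →
    (∀ w Q', E t (z :: Q) (z :: w :: Q') → ¬ t w z y) → R t (y :: z :: Q) := by
  induction n using Nat.strong_induction_on with
  | _ n IH =>
    intro y z Q hn hR h1 h2
    have horR : ∀ w S z1, E t (z :: Q) (z :: w :: S) → t w z z1 → t z z1 y →
        R t (z1 :: w :: S) := by
      intro w S z1 k1 k2 k3
      have hl : S.length < n := by
        have := (inf k1).2.1
        simp only [List.length_cons] at this
        omega
      have hRz : R t (z :: w :: S) := hR.of_E k1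
      refine IH S.length hl z1 w S rfl hRz.tail ?_ ?_
      · intro Q' hQ
        exact hRz _ (E.cons hQ) (Bad.corner (ht.s2 k2))
      · intro u Q' hQ hu
        have e1 : E t (z :: w :: S) (z :: z1 :: u :: Q') :=
          (E.cons hQ).trans (E.top hu (ht.s0 k2))
        exact h2 z1 (u :: Q') (k1.trans e1) (ht.s2 k3)
    have inv : ∀ P', E t (y :: z :: Q) P' → ∃ z' Q', P' = y :: z' :: Q' ∧ Alt t y z Q z' Q' := by
      intro P' hE
      induction hE with
      | refl => exact ⟨z, Q, rfl, Or.inl ⟨rfl, Relation.ReflTransGen.refl⟩⟩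
      | @tail P1 P2 g1 g2 ih =>
        obtain ⟨z1, Q1, rfl, hA⟩ := ih
        have hP2 : ∃ z2 Q2, P2 = y :: z2 :: Q2 := by
          cases g2 with
          | top _ _ => exact ⟨_, _, rfl⟩
          | @cons _ _ P'' h =>
            have := h.head.1
            cases P'' with
            | nil => simp at this
            | cons a l => exact ⟨a, l, rfl⟩
        obtain ⟨z2, Q2, rfl⟩ := hP2
        refine ⟨z2, Q2, rfl, step_alt ht ?_ ?_ hA g2⟩
        · rintro w S h rfl
          exact h1 S h
        · intro w1 S1 w S k1 k2 k3 k4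
          exact key' ht (horR w S z1 k1 k2 k3) (k4.symm ht)
    intro P' hE hB
    obtain ⟨z1, Q1, rfl, hA⟩ := inv P' hE
    rcases hA with ⟨rfl, k1⟩ | ⟨hne, w, S, k1, k2, k3, k4⟩
    · cases hB with
      | back => exact h1 _ k1
      | @corner _ _ w _ h => exact h2 w _ k1 (ht.s1 h)
      | cons h => exact hR _ k1 h
    · have hR1 := horR w S z1 k1 k3 k4
      cases hB with
      | cons h => exact hR1 _ (k2.symm ht) h
      | @back _ _ Q2 =>
        rcases key' ht hR1 (k2.symm ht) with ⟨rfl, -⟩ | ⟨e, u, U, -, -, -, k8⟩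
        · exact h1 S k1
        · exact ht.g3 z1 y z w (ht.r1 k4) (ht.s1 k3) (ht.r2 k8)
      | @corner _ _ w' Q2 h =>
        rcases key' ht hR1 (k2.symm ht) with ⟨rfl, -⟩ | ⟨e, u, U, k5, k6, k7, k8⟩
        · exact ht.g3 z1 y z w (ht.r1 k4) (ht.s1 k3) (ht.r1 h)
        · rcases ht.g4 z1 y z w w' (ht.r1 k4) (ht.s1 k3) (ht.r2 k8) (ht.r1 h) with h' | h'
          · subst h'
            exact h1 S k1
          · subst h'
            have e1 : E t (z :: Q) (z :: w :: u :: U) := k1.trans (E.cons k5)
            exact hR _ e1 (Bad.corner (ht.s1 k7))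

end Run7.h595.T3
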