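import Pool.Agent.Run7.h595.T3.Flip

/-! Steps of classes of reduced paths. -/

set_option autoImplicit false

namespace Run7.h595.T3

variable {V : Type} {t : V → V → V → Prop}

/-- the results of the step from `x` to `y` -/
inductive St (t : V → V → V → Prop) (x y : V) (P : List V) : List V → Prop
  | down {Q' : List V} (h : E t P (x :: y :: Q')) : St t x y P (y :: Q')
  | hor {z : V} {Q' : List V} (h : E t P (x :: z :: Q')) (h1 : t x z y)
      (h2 : ∀ Q'', ¬ E t P (x :: y :: Q'')) : St t x y P (y :: z :: Q')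
  | up (h2 : ∀ Q'', ¬ E t P (x :: y :: Q'')) (h3 : ∀ z Q', E t P (x :: z :: Q') → ¬ t x z y) :
      St t x y P (y :: P)

theorem St.ex (x y : V) (P : List V) : ∃ P', St t x y P P' := by
  by_cases h1 : ∃ Q', E t P (x :: y :: Q')
  · obtain ⟨Q', h⟩ := h1
    exact ⟨_, St.down h⟩
  · push Not at h1
    by_cases h2 : ∃ z Q', E t P (x :: z :: Q') ∧ t x z y
    · obtain ⟨z, Q', h, h'⟩ := h2
      exact ⟨_, St.hor h h' h1⟩
    · push Not at h2
      exact ⟨_, St.up h1 h2⟩

theorem horR (ht : TS t) {x y z : V} {Q' : List V} (hR : R t (x :: z :: Q')) (h1 : t x z y)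
    (h2 : ∀ Q'', ¬ E t (x :: z :: Q') (x :: y :: Q'')) : R t (y :: z :: Q') := by
  refine crit ht _ y z Q' rfl hR.tail ?_ ?_
  · intro Q'' h
    exact hR _ (E.cons h) (Bad.corner h1)
  · intro w Q'' h hw
    exact h2 (w :: Q'') ((E.cons h).trans (E.top hw (ht.r1 h1)))

theorem St.R (ht : TS t) {x y : V} {Q P' : List V} (hR : R t (x :: Q))
    (h : St t x y (x :: Q) P') : R t P' := by
  cases h with
  | down h => exact (hR.of_E h).tail
  | hor h h1 h2 =>
    exact horR ht (hR.of_E h) h1 fun Q'' h' => h2 Q'' (h.trans h')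
  | up h2 h3 =>
    exact crit ht _ y x Q rfl hR h2 fun w Q' h hw => h3 w Q' h (ht.s2 hw)

theorem St.uniq (ht : TS t) {x y : V} {P P2 P' P2' : List V} (hR : Run7.h595.T3.R t P)
    (hE : E t P P2) (h : St t x y P P') (h' : St t x y P2 P2') : E t P' P2' := by
  have hE' := hE.symm ht
  cases h with
  | @down Q1 a =>
    cases h' with
    | @down Q2 b =>
      have e : E t (x :: y :: Q1) (x :: y :: Q2) := ((a.symm ht).trans hE).trans b
      rcases key' ht (hR.of_E a) e with ⟨-, h⟩ | ⟨h, -⟩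
      · exact h
      · exact absurd rfl h
    | hor _ _ b2 => exact absurd (hE'.trans a) (b2 _)
    | up b2 _ => exact absurd (hE'.trans a) (b2 _)
  | @hor z Q1 a a1 a2 =>
    cases h' with
    | down b => exact absurd (hE.trans b) (a2 _)
    | @hor z2 Q2 b b1 b2 =>
      have e : E t (x :: z :: Q1) (x :: z2 :: Q2) := ((a.symm ht).trans hE).trans b
      rcases key' ht (hR.of_E a) e with ⟨rfl, h⟩ | ⟨_, w, S, -, -, -, h⟩
      · exact E.cons h
      · exact (ht.g3 x z z2 y (ht.r2 h) b1 (ht.s0 a1)).elim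
    | up b2 b3 => exact absurd a1 (b3 _ _ (hE'.trans a))
  | up a2 a3 =>
    cases h' with
    | down b => exact absurd (hE.trans b) (a2 _)
    | hor b b1 b2 => exact absurd b1 (a3 _ _ (hE.trans b))
    | up b2 b3 => exact E.cons hE

theorem St.back (ht : TS t) {x y : V} {Q P' : List V} (hR : Run7.h595.T3.R t (x :: Q))
    (h : St t x y (x :: Q) P') : ∃ P'', St t y x P' P'' ∧ E t P'' (x :: Q) := by
  cases h with
  | @down Q' a =>
    refine ⟨x :: y :: Q', St.up ?_ ?_, a.symm ht⟩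
    · intro Q'' h
      exact hR _ (a.trans (E.cons h)) Bad.back
    · intro z Q'' h h1
      exact hR _ (a.trans (E.cons h)) (Bad.corner (ht.r2 h1))
  | @hor z Q' a a1 a2 =>
    have hR' := horR ht (hR.of_E a) a1 fun Q'' h' => a2 Q'' (a.trans h')
    refine ⟨x :: z :: Q', St.hor Relation.ReflTransGen.refl (ht.s1 a1) ?_, a.symm ht⟩
    intro Q'' h
    rcases key' ht hR' h with ⟨rfl, -⟩ | ⟨-, w, S, h1, -, h3, -⟩
    · exact ht.n1 a1 rfl
    · exact hR _ (a.trans (E.cons h1)) (Bad.corner (ht.s1 h3))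
  | up a2 a3 => exact ⟨x :: Q, St.down Relation.ReflTransGen.refl, Relation.ReflTransGen.refl⟩

theorem St.tri (ht : TS t) {x y z : V} {Q P1 P3 : List V} (hR : Run7.h595.T3.R t (x :: Q))
    (hx : t x y z) (h1 : St t x y (x :: Q) P1) (h3 : St t x z (x :: Q) P3) :
    ∃ P2, St t y z P1 P2 ∧ E t P2 P3 := by
  have hR3 := St.R ht hR h3
  cases h1 with
  | @down Q1 a =>
    have n1 : ∀ Q'', ¬ E t (y :: Q1) (y :: z :: Q'') := fun Q'' h =>
      hR _ (a.trans (E.cons h)) (Bad.corner hx)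
    cases h3 with
    | @down Q2 b =>
      rcases key' ht (hR.of_E a) ((a.symm ht).trans b) with ⟨e, -⟩ | ⟨_, w, S, k1, k2, k3, -⟩
      · exact (ht.n2 hx e).elim
      · exact ⟨z :: w :: S, St.hor k1 (ht.s2 k3) n1, k2.symm ht⟩
    | @hor w Q2 b b1 b2 =>
      rcases key' ht (hR.of_E a) ((a.symm ht).trans b) with ⟨rfl, k⟩ | ⟨_, w', S, -, -, -, k⟩
      · refine ⟨z :: y :: Q1, St.up n1 ?_, E.cons k⟩
        intro u Q'' h hu
        exact b2 (u :: Q'') ((a.trans (E.cons h)).trans (E.top (ht.s2 hu) (ht.r1 hx)))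
      · exact (ht.g3 x y w z (ht.r2 k) b1 (ht.s0 hx)).elim
    | up b2 b3 => exact absurd hx (b3 _ _ a)
  | @hor w Q1 a a1 a2 =>
    cases h3 with
    | @down Q2 b =>
      rcases key' ht (hR.of_E a) ((a.symm ht).trans b) with ⟨rfl, k⟩ | ⟨_, w', S, -, -, -, k⟩
      · exact ⟨w :: Q1, St.down Relation.ReflTransGen.refl, k⟩
      · exact (ht.g3 x w z y (ht.r2 k) (ht.s0 hx) (ht.s0 a1)).elim
    | @hor w2 Q2 b b1 b2 =>
      rcases key' ht (hR.of_E a) ((a.symm ht).trans b) with ⟨rfl, k⟩ | ⟨_, w', S, -, -, -, k⟩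
      · exact (ht.g3 x w y z a1 hx (ht.s0 b1)).elim
      · rcases ht.g4 x y w w2 z (ht.s0 a1) (ht.r2 k) b1 (ht.s0 hx) with e | e
        · subst e
          exact absurd b (a2 _)
        · subst e
          exact absurd a (b2 _)
    | up b2 b3 =>
      have e1 : E t (z :: x :: Q) (z :: y :: w :: Q1) :=
        (E.cons a).trans (E.top (ht.s2 a1) hx)
      refine ⟨z :: y :: w :: Q1, St.up ?_ ?_, e1.symm ht⟩
      · intro Q'' h
        exact hR3 _ (e1.trans (E.cons h)) Bad.back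
      · intro u Q'' h hu
        exact hR3 _ (e1.trans (E.cons h)) (Bad.corner (ht.r2 hu))
  | up a2 a3 =>
    cases h3 with
    | @down Q2 b => exact absurd (ht.s0 hx) (a3 _ _ b)
    | @hor w2 Q2 b b1 b2 =>
      refine ⟨z :: w2 :: Q2, St.down ?_, Relation.ReflTransGen.refl⟩
      exact (E.cons b).trans (E.top (ht.s2 b1) (ht.s0 hx))
    | up b2 b3 =>
      refine ⟨z :: x :: Q, St.hor Relation.ReflTransGen.refl (ht.s2 hx) ?_,
        Relation.ReflTransGen.refl⟩
      intro Q'' h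
      have hR1 : Run7.h595.T3.R t (y :: x :: Q) :=
        crit ht _ y x Q rfl hR a2 fun w Q' h hw => a3 w Q' h (ht.s2 hw)
      rcases key' ht hR1 h with ⟨e, -⟩ | ⟨_, w, S, k1, -, k3, -⟩
      · exact ht.n3 hx e
      · exact b3 _ _ k1 (ht.s2 k3)

end Run7.h595.T3
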